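import Pool.Agent.Helper17.PP.GoalsC3

/-!
# Packet PP-C_SM2: the sum of the bounds of `C_SML`
-/

namespace Pool.Agent.Helper59.PP

open Finset Pool.Agent.Helper17.PP

lemma ti_le (A : ℕ) {ε : ℝ} (hε : 0 < ε) :
    ∃ D : ℝ, 1 ≤ D ∧ ∀ j : ℕ, 1 ≤ j → (ti A j : ℝ) + 2 ≤ D * (j : ℝ) ^ ε := by
  have hl : 0 < Real.log 2 := Real.log_pos (by norm_num)
  refine ⟨A / (ε * Real.log 2) + 2, ?_, fun j hj => ?_⟩
  · have : (0 : ℝ) ≤ A / (ε * Real.log 2) := by positivity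
    linarith
  · have hj1 : (1 : ℝ) ≤ j := by exact_mod_cast hj
    have h1 : (1 : ℝ) ≤ (j : ℝ) ^ ε := Real.one_le_rpow hj1 hε.le
    have h2 : (Nat.log 2 j : ℝ) ≤ Real.log j / Real.log 2 := by
      have := Real.natLog_le_logb j 2
      simpa [Real.logb] using this
    have h3 : Real.log j ≤ (j : ℝ) ^ ε / ε := Real.log_le_rpow_div (by positivity) hε
    have h4 : (Nat.log 2 j : ℝ) ≤ (j : ℝ) ^ ε / ε / Real.log 2 :=
      h2.trans (div_le_div_of_nonneg_right h3 hl.le)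
    have h5 : (ti A j : ℝ) = A * (Nat.log 2 j : ℝ) := by
      unfold ti; push_cast; ring
    rw [h5]
    have h6 : (A : ℝ) * (Nat.log 2 j : ℝ) ≤ A * ((j : ℝ) ^ ε / ε / Real.log 2) :=
      mul_le_mul_of_nonneg_left h4 (by positivity)
    have h7 : (A : ℝ) * ((j : ℝ) ^ ε / ε / Real.log 2) = A / (ε * Real.log 2) * (j : ℝ) ^ ε := by
      field_simp
    nlinarith

lemma a_le (A K' : ℕ) {η : ℝ} (hη : 0 < η) :
    ∃ C : ℝ, 1 ≤ C ∧ ∀ j : ℕ, 1 ≤ j → ((ti A j : ℝ) + 2) ^ K' ≤ C * (j : ℝ) ^ η := by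
  have hk : (0 : ℝ) < (K' : ℝ) + 1 := by positivity
  obtain ⟨D, hD, h⟩ := ti_le A (ε := η / (K' + 1)) (by positivity)
  refine ⟨D ^ K', one_le_pow₀ hD, fun j hj => ?_⟩
  have hj1 : (1 : ℝ) ≤ j := by exact_mod_cast hj
  have h1 : ((ti A j : ℝ) + 2) ^ K' ≤ (D * (j : ℝ) ^ (η / (K' + 1))) ^ K' :=
    pow_le_pow_left₀ (by positivity) (h j hj) _
  refine h1.trans ?_
  rw [mul_pow]
  refine mul_le_mul_of_nonneg_left ?_ (by positivity)
  rw [← Real.rpow_natCast, ← Real.rpow_mul (by positivity)]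
  refine Real.rpow_le_rpow_of_exponent_le hj1 ?_
  rw [div_mul_eq_mul_div, div_le_iff₀ hk]
  nlinarith

lemma split_xy {x y M δ : ℝ} (hx : 1 ≤ x) (hy : 1 ≤ y) (hM : 0 < M) (hxy : M ≤ x + y)
    (h0 : 0 < δ) (h1 : δ ≤ 1) :
    x⁻¹ * y ^ (-δ) ≤ (M / 2) ^ (-(δ / 2)) * (x ^ (-(1 + δ / 2)) + y ^ (-(1 + δ / 2))) := by
  have hx0 : 0 < x := by linarith
  have hy0 : 0 < y := by linarith
  have px : 0 < x ^ (-(1 + δ / 2)) := Real.rpow_pos_of_pos hx0 _
  have py : 0 < y ^ (-(1 + δ / 2)) := Real.rpow_pos_of_pos hy0 _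
  have pM : 0 < (M / 2) ^ (-(δ / 2)) := Real.rpow_pos_of_pos (by linarith) _
  rcases le_total x y with h | h
  · have hz : M / 2 ≤ y := by linarith
    have e1 : y ^ (-δ) = y ^ (-(δ / 2)) * y ^ (-(δ / 2)) := by
      rw [← Real.rpow_add hy0]; congr 1; ring
    have e2 : y ^ (-(δ / 2)) ≤ x ^ (-(δ / 2)) :=
      Real.rpow_le_rpow_of_nonpos hx0 h (by linarith)
    have e3 : y ^ (-(δ / 2)) ≤ (M / 2) ^ (-(δ / 2)) :=
      Real.rpow_le_rpow_of_nonpos (by linarith) hz (by linarith)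
    have e4 : x⁻¹ * x ^ (-(δ / 2)) = x ^ (-(1 + δ / 2)) := by
      rw [← Real.rpow_neg_one, ← Real.rpow_add hx0]; congr 1; ring
    have p2 : 0 ≤ y ^ (-(δ / 2)) := (Real.rpow_pos_of_pos hy0 _).le
    calc x⁻¹ * y ^ (-δ) = x⁻¹ * (y ^ (-(δ / 2)) * y ^ (-(δ / 2))) := by rw [e1]
      _ ≤ x⁻¹ * (x ^ (-(δ / 2)) * (M / 2) ^ (-(δ / 2))) :=
        mul_le_mul_of_nonneg_left (mul_le_mul e2 e3 p2 (p2.trans e2)) (by positivity)
      _ = (M / 2) ^ (-(δ / 2)) * x ^ (-(1 + δ / 2)) := by rw [← e4]; ring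
      _ ≤ _ := mul_le_mul_of_nonneg_left (by linarith) pM.le
  · have hz : M / 2 ≤ x := by linarith
    have e1 : x⁻¹ = x ^ (-(1 - δ / 2)) * x ^ (-(δ / 2)) := by
      rw [← Real.rpow_neg_one, ← Real.rpow_add hx0]; congr 1; ring
    have e2 : x ^ (-(1 - δ / 2)) ≤ y ^ (-(1 - δ / 2)) :=
      Real.rpow_le_rpow_of_nonpos hy0 h (by linarith)
    have e3 : x ^ (-(δ / 2)) ≤ (M / 2) ^ (-(δ / 2)) :=
      Real.rpow_le_rpow_of_nonpos (by linarith) hz (by linarith)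
    have e4 : y ^ (-(1 - δ / 2)) * y ^ (-δ) = y ^ (-(1 + δ / 2)) := by
      rw [← Real.rpow_add hy0]; congr 1; ring
    have p2 : 0 ≤ x ^ (-(δ / 2)) := (Real.rpow_pos_of_pos hx0 _).le
    have p3 : 0 ≤ x ^ (-(1 - δ / 2)) := (Real.rpow_pos_of_pos hx0 _).le
    have p4 : 0 ≤ y ^ (-δ) := (Real.rpow_pos_of_pos hy0 _).le
    calc x⁻¹ * y ^ (-δ) = (x ^ (-(1 - δ / 2)) * x ^ (-(δ / 2))) * y ^ (-δ) := by rw [← e1]
      _ ≤ (y ^ (-(1 - δ / 2)) * (M / 2) ^ (-(δ / 2))) * y ^ (-δ) :=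
        mul_le_mul_of_nonneg_right (mul_le_mul e2 e3 p2 (p3.trans e2)) p4
      _ = (M / 2) ^ (-(δ / 2)) * y ^ (-(1 + δ / 2)) := by rw [← e4]; ring
      _ ≤ _ := mul_le_mul_of_nonneg_left (by linarith) pM.le

lemma sum_comp_le {f : ℕ → ℝ} (hf : Summable f) (h0 : ∀ i, 0 ≤ f i) (s : Finset ℕ)
    (φ : ℕ → ℕ) (hφ : Set.InjOn φ s) : ∑ j ∈ s, f (φ j) ≤ ∑' i, f i := by
  rw [← Finset.sum_image hφ]
  exact hf.sum_le_tsum _ fun i _ => h0 i

lemma ti_mono (A : ℕ) {i j : ℕ} (h : i ≤ j) : ti A i ≤ ti A j :=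
  Nat.mul_le_mul_left _ (Nat.log_mono_right h)

/-- the sum of the `y`-terms -/
lemma sum_y {γ : ℝ} (hγ : 1 < γ) (M L : ℕ) (s : Finset ℕ) (hs : ∀ j ∈ s, j ≤ L + 1) :
    ∑ j ∈ s, ((max 1 (M - j) : ℕ) : ℝ) ^ (-γ) ≤
      ∑' i : ℕ, (i : ℝ) ^ (-γ) + ((L + 2 - M : ℕ) : ℝ) := by
  classical
  have hsum : Summable fun i : ℕ => (i : ℝ) ^ (-γ) := Real.summable_nat_rpow.2 (by linarith)
  have hnn : ∀ i : ℕ, (0 : ℝ) ≤ (i : ℝ) ^ (-γ) := fun i => Real.rpow_nonneg (by positivity) _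
  rw [← Finset.sum_filter_add_sum_filter_not s (fun j => j < M)]
  refine add_le_add ?_ ?_
  · have h1 : ∑ j ∈ s.filter (fun j => j < M), ((max 1 (M - j) : ℕ) : ℝ) ^ (-γ) =
        ∑ j ∈ s.filter (fun j => j < M), ((M - j : ℕ) : ℝ) ^ (-γ) := by
      refine Finset.sum_congr rfl fun j hj => ?_
      have : j < M := (Finset.mem_filter.1 hj).2
      rw [max_eq_right (by omega)]
    rw [h1]
    refine sum_comp_le hsum hnn _ (fun j => M - j) ?_
    intro a ha b hb hab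
    have h2 : a < M := (Finset.mem_filter.1 (Finset.mem_coe.1 ha)).2
    have h3 : b < M := (Finset.mem_filter.1 (Finset.mem_coe.1 hb)).2
    have h4 : M - a = M - b := hab
    omega
  · have h1 : ∀ j ∈ s.filter (fun j => ¬ j < M), ((max 1 (M - j) : ℕ) : ℝ) ^ (-γ) ≤ 1 := by
      intro j hj
      refine Real.rpow_le_one_of_one_le_of_nonpos ?_ (by linarith)
      exact_mod_cast le_max_left _ _
    refine (Finset.sum_le_sum h1).trans ?_
    rw [Finset.sum_const, nsmul_eq_mul, mul_one]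
    have h2 : s.filter (fun j => ¬ j < M) ⊆ Finset.Ico M (L + 2) := by
      intro j hj
      rw [Finset.mem_filter] at hj
      rw [Finset.mem_Ico]
      have := hs j hj.1
      omega
    have h3 := Finset.card_le_card h2
    rw [Nat.card_Ico] at h3
    exact_mod_cast h3

theorem c_sm2 : C_SM2 := by
  intro K K' A ε hK hε
  have hK0 : (0 : ℝ) < K := by exact_mod_cast hK
  have hK1 : (1 : ℝ) ≤ K := by exact_mod_cast hK
  obtain ⟨δ, hδ⟩ : ∃ δ : ℝ, δ = 1 / K := ⟨_, rfl⟩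
  have hδ0 : 0 < δ := by rw [hδ]; positivity
  have hδ1 : δ ≤ 1 := by rw [hδ, div_le_one hK0]; exact hK1
  rw [← hδ]
  obtain ⟨η, hη⟩ : ∃ η : ℝ, η = δ / 8 := ⟨_, rfl⟩
  have hη0 : 0 < η := by rw [hη]; positivity
  obtain ⟨C, hC1, hC⟩ := a_le A K' hη0
  obtain ⟨C₁, hC₁1, hC₁⟩ := ti_le A hη0
  -- first part
  have hs1 : Summable fun j : ℕ => C * (j : ℝ) ^ (-(1 + δ - η)) :=
    (Real.summable_nat_rpow.2 (by linarith)).mul_left C
  obtain ⟨s1, hs1'⟩ := summable_iff_vanishing_norm.1 hs1 (ε / 2) (by positivity)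
  refine ⟨s1.sup id + 1, fun j₀ hj₀ => ?_⟩
  have hj₀1 : 1 ≤ j₀ := by omega
  have part1 : ∀ J : ℕ, ∑ j ∈ Ico j₀ J, C * (j : ℝ) ^ (-(1 + δ - η)) ≤ ε / 2 := by
    intro J
    have hd : Disjoint (Ico j₀ J) s1 := by
      rw [Finset.disjoint_left]
      intro a ha hb
      have h1 : a ≤ s1.sup id := Finset.le_sup (f := id) hb
      have h2 := (Finset.mem_Ico.1 ha).1
      omega
    exact (le_abs_self _).trans (hs1' _ hd).le
  -- the constants
  have hsγ : Summable fun i : ℕ => (i : ℝ) ^ (-(1 + δ / 2)) :=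
    Real.summable_nat_rpow.2 (by linarith)
  obtain ⟨Z, hZ⟩ : ∃ Z : ℝ, Z = ∑' i : ℕ, (i : ℝ) ^ (-(1 + δ / 2)) := ⟨_, rfl⟩
  have hZ0 : 0 ≤ Z := by
    rw [hZ]; exact tsum_nonneg fun i => Real.rpow_nonneg (by positivity) _
  obtain ⟨C₂, hC₂⟩ : ∃ C₂ : ℝ, C₂ = C * (8 ^ (δ / 2) * (2 * Z + C₁ + 1)) + 2 * C := ⟨_, rfl⟩
  have ht : ∀ c : ℝ, 0 < c → Filter.Tendsto (fun L : ℕ => ((L : ℝ) + 1) ^ (-c)) Filter.atTop
      (nhds 0) := by
    intro c hc
    have h1 : Filter.Tendsto (fun L : ℕ => (L : ℝ) + 1) Filter.atTop Filter.atTop :=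
      Filter.tendsto_atTop_add_const_right _ _ tendsto_natCast_atTop_atTop
    exact (tendsto_rpow_neg_atTop hc).comp h1
  have hL1 : ∀ᶠ L : ℕ in Filter.atTop, C₂ * ((L : ℝ) + 1) ^ (-(δ / 4)) ≤ ε / 2 := by
    have h1 := (ht (δ / 4) (by positivity)).const_mul C₂
    rw [mul_zero] at h1
    exact (h1.eventually (gt_mem_nhds (show (0 : ℝ) < ε / 2 by positivity))).mono
      fun L h => le_of_lt h
  have hL2 : ∀ᶠ L : ℕ in Filter.atTop, C₁ * ((L : ℝ) + 1) ^ (-(1 - η)) ≤ 3 / 4 := by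
    have h1 := (ht (1 - η) (by rw [hη]; linarith)).const_mul C₁
    rw [mul_zero] at h1
    exact (h1.eventually (gt_mem_nhds (show (0 : ℝ) < 3 / 4 by norm_num))).mono
      fun L h => le_of_lt h
  obtain ⟨L₀, hL₀⟩ := Filter.eventually_atTop.1 (hL1.and (hL2.and (Filter.eventually_ge_atTop 1)))
  refine ⟨L₀, fun L hL J => ?_⟩
  obtain ⟨hA, hB, hL1'⟩ := hL₀ L hL
  -- abbreviations
  obtain ⟨X, hX⟩ : ∃ X : ℝ, X = (L : ℝ) + 1 := ⟨_, rfl⟩
  rw [← hX] at hA hB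
  have hX0 : 0 < X := by rw [hX]; positivity
  have hX1 : 1 ≤ X := by rw [hX]; linarith [show (0 : ℝ) ≤ L by positivity]
  obtain ⟨T, hT⟩ : ∃ T : ℕ, T = ti A (L + 1) := ⟨_, rfl⟩
  have hTle : (T : ℝ) + 2 ≤ C₁ * X ^ η := by
    have := hC₁ (L + 1) (by omega)
    rw [← hT] at this
    rw [hX]
    exact_mod_cast this
  have hXη : X ^ (-(1 - η)) * X = X ^ η := by
    nth_rewrite 2 [← Real.rpow_one X]
    rw [← Real.rpow_add hX0]; congr 1; ring
  have hT34 : (T : ℝ) + 2 ≤ 3 / 4 * X := by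
    refine hTle.trans ?_
    rw [← hXη, ← mul_assoc]
    exact mul_le_mul_of_nonneg_right hB hX0.le
  obtain ⟨M, hM⟩ : ∃ M : ℕ, M = L - 1 - T := ⟨_, rfl⟩
  have hTL : T + 1 ≤ L := by
    have h1 : (T : ℝ) + 2 ≤ L + 1 := by
      refine hT34.trans ?_
      rw [hX]; linarith [show (0 : ℝ) ≤ L by positivity]
    have h2 : T + 2 ≤ L + 1 := by exact_mod_cast h1
    omega
  have hMr : (M : ℝ) = X - (T + 2) := by
    have h1 : M + (T + 2) = L + 1 := by omega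
    have h2 : ((M + (T + 2) : ℕ) : ℝ) = ((L + 1 : ℕ) : ℝ) := by rw [h1]
    push_cast at h2
    rw [hX]; linarith
  have hM4 : X / 4 ≤ M := by rw [hMr]; linarith
  have hM0 : (0 : ℝ) < M := lt_of_lt_of_le (by positivity) hM4
  -- the pointwise bound
  have hterm : ∀ j ∈ Ico j₀ J, ((ti A j : ℝ) + 2) ^ K' / j * min 1 (2 ^ (L + 1) / 2 ^ j) *
      ((max 1 (min j (L - (j + 1 + ti A j))) : ℕ) : ℝ) ^ (-δ) ≤
      C * (j : ℝ) ^ (-(1 + δ - η)) + ((ti A j : ℝ) + 2) ^ K' / j * min 1 (2 ^ (L + 1) / 2 ^ j) *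
        ((max 1 (L - (j + 1 + ti A j)) : ℕ) : ℝ) ^ (-δ) := by
    intro j hj
    have hj1 : 1 ≤ j := hj₀1.trans (Finset.mem_Ico.1 hj).1
    have hj1r : (1 : ℝ) ≤ j := by exact_mod_cast hj1
    have hj0r : (0 : ℝ) < j := by linarith
    obtain ⟨n, hn⟩ : ∃ n : ℕ, n = L - (j + 1 + ti A j) := ⟨_, rfl⟩
    rw [← hn]
    obtain ⟨a, ha⟩ : ∃ a : ℝ, a = ((ti A j : ℝ) + 2) ^ K' := ⟨_, rfl⟩
    have haC : a ≤ C * (j : ℝ) ^ η := by rw [ha]; exact hC j hj1
    have ha0 : 0 ≤ a := by rw [ha]; positivity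
    rw [← ha]
    obtain ⟨w, hw⟩ : ∃ w : ℝ, w = min 1 (2 ^ (L + 1) / 2 ^ j) := ⟨_, rfl⟩
    rw [← hw]
    have hw0 : 0 ≤ w := by rw [hw]; positivity
    have hw1 : w ≤ 1 := by rw [hw]; exact min_le_left _ _
    have h1 : ((max 1 (min j n) : ℕ) : ℝ) ^ (-δ) ≤ (j : ℝ) ^ (-δ) +
        ((max 1 n : ℕ) : ℝ) ^ (-δ) := by
      have p1 : (0 : ℝ) ≤ (j : ℝ) ^ (-δ) := Real.rpow_nonneg hj0r.le _
      have p2 : (0 : ℝ) ≤ ((max 1 n : ℕ) : ℝ) ^ (-δ) := Real.rpow_nonneg (by positivity) _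
      rcases le_total j n with h | h
      · rw [min_eq_left h, max_eq_right hj1]; linarith
      · rw [min_eq_right h]; linarith
    have h2 : a / j * w * ((max 1 (min j n) : ℕ) : ℝ) ^ (-δ) ≤
        a / j * w * ((j : ℝ) ^ (-δ) + ((max 1 n : ℕ) : ℝ) ^ (-δ)) :=
      mul_le_mul_of_nonneg_left h1 (by positivity)
    refine h2.trans ?_
    rw [mul_add]
    refine add_le_add ?_ le_rfl
    have h3 : a / j * w ≤ C * (j : ℝ) ^ η / j := by
      calc a / j * w ≤ a / j * 1 := mul_le_mul_of_nonneg_left hw1 (by positivity)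
        _ = a / j := mul_one _
        _ ≤ _ := div_le_div_of_nonneg_right haC hj0r.le
    refine (mul_le_mul_of_nonneg_right h3 (Real.rpow_nonneg hj0r.le _)).trans (le_of_eq ?_)
    rw [mul_div_assoc, mul_assoc]
    congr 1
    rw [div_eq_mul_inv, ← Real.rpow_neg_one, ← Real.rpow_add hj0r, ← Real.rpow_add hj0r]
    congr 1; ring
  refine (Finset.sum_le_sum hterm).trans ?_
  rw [Finset.sum_add_distrib]
  have hfin : ∑ j ∈ Ico j₀ J, ((ti A j : ℝ) + 2) ^ K' / j * min 1 (2 ^ (L + 1) / 2 ^ j) *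
        ((max 1 (L - (j + 1 + ti A j)) : ℕ) : ℝ) ^ (-δ) ≤ ε / 2 := by
    refine le_trans ?_ hA
    rw [← Finset.sum_filter_add_sum_filter_not (Ico j₀ J) (fun j => j ≤ L + 1)]
    -- the part up to `L + 1`
    have q1 : ∑ j ∈ (Ico j₀ J).filter (fun j => j ≤ L + 1),
        ((ti A j : ℝ) + 2) ^ K' / j * min 1 (2 ^ (L + 1) / 2 ^ j) *
        ((max 1 (L - (j + 1 + ti A j)) : ℕ) : ℝ) ^ (-δ) ≤
        C * (8 ^ (δ / 2) * (2 * Z + C₁ + 1)) * X ^ (-(δ / 4)) := by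
      have r1 : ∀ j ∈ (Ico j₀ J).filter (fun j => j ≤ L + 1),
          ((ti A j : ℝ) + 2) ^ K' / j * min 1 (2 ^ (L + 1) / 2 ^ j) *
          ((max 1 (L - (j + 1 + ti A j)) : ℕ) : ℝ) ^ (-δ) ≤
          (C * X ^ η * ((M : ℝ) / 2) ^ (-(δ / 2))) * ((j : ℝ) ^ (-(1 + δ / 2)) +
            ((max 1 (M - j) : ℕ) : ℝ) ^ (-(1 + δ / 2))) := by
        intro j hj
        rw [Finset.mem_filter] at hj
        have hj1 : 1 ≤ j := hj₀1.trans (Finset.mem_Ico.1 hj.1).1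
        have hjL := hj.2
        have hj1r : (1 : ℝ) ≤ j := by exact_mod_cast hj1
        have hj0r : (0 : ℝ) < j := by linarith
        have haC : ((ti A j : ℝ) + 2) ^ K' ≤ C * X ^ η := by
          refine (hC j hj1).trans (mul_le_mul_of_nonneg_left ?_ (by linarith))
          refine Real.rpow_le_rpow hj0r.le ?_ hη0.le
          rw [hX]; exact_mod_cast hjL
        have ha0 : (0 : ℝ) ≤ ((ti A j : ℝ) + 2) ^ K' := by positivity
        have hw1 : min 1 ((2 : ℝ) ^ (L + 1) / 2 ^ j) ≤ 1 := min_le_left _ _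
        have hw0 : 0 ≤ min 1 ((2 : ℝ) ^ (L + 1) / 2 ^ j) := by positivity
        have hn : max 1 (M - j) ≤ max 1 (L - (j + 1 + ti A j)) := by
          have := ti_mono A hjL
          rw [← hT] at this
          exact max_le_max le_rfl (by omega)
        have hy1 : (1 : ℝ) ≤ ((max 1 (M - j) : ℕ) : ℝ) := by exact_mod_cast le_max_left _ _
        have hnr : ((max 1 (L - (j + 1 + ti A j)) : ℕ) : ℝ) ^ (-δ) ≤
            ((max 1 (M - j) : ℕ) : ℝ) ^ (-δ) :=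
          Real.rpow_le_rpow_of_nonpos (by linarith) (by exact_mod_cast hn) (by linarith)
        have hxy : (M : ℝ) ≤ (j : ℝ) + ((max 1 (M - j) : ℕ) : ℝ) := by
          have : M ≤ j + max 1 (M - j) := by
            have := le_max_right 1 (M - j)
            omega
          exact_mod_cast this
        have hsp := split_xy hj1r hy1 hM0 hxy hδ0 hδ1
        have hp : (0 : ℝ) ≤ ((max 1 (L - (j + 1 + ti A j)) : ℕ) : ℝ) ^ (-δ) :=
          Real.rpow_nonneg (by positivity) _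
        calc ((ti A j : ℝ) + 2) ^ K' / j * min 1 (2 ^ (L + 1) / 2 ^ j) *
              ((max 1 (L - (j + 1 + ti A j)) : ℕ) : ℝ) ^ (-δ)
            ≤ (C * X ^ η) / j * 1 * ((max 1 (M - j) : ℕ) : ℝ) ^ (-δ) := by
              refine mul_le_mul (mul_le_mul (div_le_div_of_nonneg_right haC hj0r.le) hw1 hw0
                (by positivity)) hnr hp (by positivity)
          _ = (C * X ^ η) * ((j : ℝ)⁻¹ * ((max 1 (M - j) : ℕ) : ℝ) ^ (-δ)) := by
              rw [mul_one, div_eq_mul_inv, mul_assoc]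
          _ ≤ (C * X ^ η) * (((M : ℝ) / 2) ^ (-(δ / 2)) * ((j : ℝ) ^ (-(1 + δ / 2)) +
                ((max 1 (M - j) : ℕ) : ℝ) ^ (-(1 + δ / 2)))) :=
              mul_le_mul_of_nonneg_left hsp (by positivity)
          _ = _ := by ring
      refine (Finset.sum_le_sum r1).trans ?_
      rw [← Finset.mul_sum, Finset.sum_add_distrib]
      have r2 : ∑ j ∈ (Ico j₀ J).filter (fun j => j ≤ L + 1), (j : ℝ) ^ (-(1 + δ / 2)) ≤ Z := by
        rw [hZ]
        exact sum_comp_le hsγ (fun i => Real.rpow_nonneg (by positivity) _) _ (fun j => j)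
          (fun a _ b _ h => h)
      have r3 : ∑ j ∈ (Ico j₀ J).filter (fun j => j ≤ L + 1),
          ((max 1 (M - j) : ℕ) : ℝ) ^ (-(1 + δ / 2)) ≤ Z + (T + 3) := by
        refine (sum_y (by linarith) M L _ fun j hj => (Finset.mem_filter.1 hj).2).trans ?_
        rw [← hZ]
        refine add_le_add le_rfl ?_
        have : L + 2 - M = T + 3 := by omega
        rw [this]; push_cast; exact le_rfl
      have r4 : (T : ℝ) + 3 ≤ (C₁ + 1) * X ^ η := by
        have := Real.one_le_rpow hX1 hη0.le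
        linarith
      have r5 : Z + (Z + ((T : ℝ) + 3)) ≤ (2 * Z + C₁ + 1) * X ^ η := by
        have := Real.one_le_rpow hX1 hη0.le
        nlinarith
      have r6 : ((M : ℝ) / 2) ^ (-(δ / 2)) ≤ 8 ^ (δ / 2) * X ^ (-(δ / 2)) := by
        have h1 : ((M : ℝ) / 2) ^ (-(δ / 2)) ≤ (X / 8) ^ (-(δ / 2)) :=
          Real.rpow_le_rpow_of_nonpos (by positivity) (by linarith) (by linarith)
        refine h1.trans (le_of_eq ?_)
        rw [Real.div_rpow hX0.le (by norm_num), Real.rpow_neg (by norm_num : (0 : ℝ) ≤ 8),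
          div_inv_eq_mul, mul_comm]
      have hXp : 0 < X ^ η := Real.rpow_pos_of_pos hX0 _
      calc C * X ^ η * ((M : ℝ) / 2) ^ (-(δ / 2)) *
            (∑ j ∈ (Ico j₀ J).filter (fun j => j ≤ L + 1), (j : ℝ) ^ (-(1 + δ / 2)) +
              ∑ j ∈ (Ico j₀ J).filter (fun j => j ≤ L + 1),
                ((max 1 (M - j) : ℕ) : ℝ) ^ (-(1 + δ / 2)))
          ≤ C * X ^ η * (8 ^ (δ / 2) * X ^ (-(δ / 2))) * ((2 * Z + C₁ + 1) * X ^ η) := by
            refine mul_le_mul (mul_le_mul_of_nonneg_left r6 (by positivity))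
              ((add_le_add r2 r3).trans r5) ?_ (by positivity)
            exact add_nonneg (Finset.sum_nonneg fun j _ => Real.rpow_nonneg (by positivity) _)
              (Finset.sum_nonneg fun j _ => Real.rpow_nonneg (by positivity) _)
        _ = C * (8 ^ (δ / 2) * (2 * Z + C₁ + 1)) * (X ^ η * X ^ (-(δ / 2)) * X ^ η) := by ring
        _ = C * (8 ^ (δ / 2) * (2 * Z + C₁ + 1)) * X ^ (-(δ / 4)) := by
            rw [← Real.rpow_add hX0, ← Real.rpow_add hX0]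
            congr 2
            rw [hη]; ring
    -- the part above `L + 1`
    have q2 : ∑ j ∈ (Ico j₀ J).filter (fun j => ¬ j ≤ L + 1),
        ((ti A j : ℝ) + 2) ^ K' / j * min 1 (2 ^ (L + 1) / 2 ^ j) *
        ((max 1 (L - (j + 1 + ti A j)) : ℕ) : ℝ) ^ (-δ) ≤ 2 * C * X ^ (-(δ / 4)) := by
      have r1 : ∀ j ∈ (Ico j₀ J).filter (fun j => ¬ j ≤ L + 1),
          ((ti A j : ℝ) + 2) ^ K' / j * min 1 (2 ^ (L + 1) / 2 ^ j) *
          ((max 1 (L - (j + 1 + ti A j)) : ℕ) : ℝ) ^ (-δ) ≤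
          (C * X ^ (-(δ / 4))) * (1 / 2 : ℝ) ^ (j - (L + 1)) := by
        intro j hj
        rw [Finset.mem_filter] at hj
        have hjL : L + 1 < j := by omega
        have hj1 : 1 ≤ j := by omega
        have hj1r : (1 : ℝ) ≤ j := by exact_mod_cast hj1
        have hj0r : (0 : ℝ) < j := by linarith
        have hjX : X ≤ j := by rw [hX]; exact_mod_cast hjL.le
        have haC : ((ti A j : ℝ) + 2) ^ K' / j ≤ C * X ^ (-(δ / 4)) := by
          have h1 : ((ti A j : ℝ) + 2) ^ K' / j ≤ C * (j : ℝ) ^ η / j :=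
            div_le_div_of_nonneg_right (hC j hj1) hj0r.le
          have h2 : C * (j : ℝ) ^ η / j = C * (j : ℝ) ^ (-(1 - η)) := by
            rw [mul_div_assoc]
            congr 1
            rw [div_eq_mul_inv, ← Real.rpow_neg_one, ← Real.rpow_add hj0r]
            congr 1; ring
          rw [h2] at h1
          refine h1.trans (mul_le_mul_of_nonneg_left ?_ (by linarith))
          have h3 : (j : ℝ) ^ (-(1 - η)) ≤ X ^ (-(1 - η)) :=
            Real.rpow_le_rpow_of_nonpos hX0 hjX (by rw [hη]; linarith)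
          refine h3.trans (Real.rpow_le_rpow_of_exponent_le hX1 ?_)
          rw [hη]; linarith
        have hw : min 1 ((2 : ℝ) ^ (L + 1) / 2 ^ j) ≤ (1 / 2 : ℝ) ^ (j - (L + 1)) := by
          refine (min_le_right _ _).trans (le_of_eq ?_)
          obtain ⟨m, rfl⟩ : ∃ m, j = L + 1 + m := ⟨j - (L + 1), by omega⟩
          rw [Nat.add_sub_cancel_left, one_div, inv_pow]
          field_simp
          ring
        have hw0 : 0 ≤ min 1 ((2 : ℝ) ^ (L + 1) / 2 ^ j) := by positivity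
        have hn1 : ((max 1 (L - (j + 1 + ti A j)) : ℕ) : ℝ) ^ (-δ) ≤ 1 := by
          refine Real.rpow_le_one_of_one_le_of_nonpos ?_ (by linarith)
          exact_mod_cast le_max_left _ _
        have hn0 : 0 ≤ ((max 1 (L - (j + 1 + ti A j)) : ℕ) : ℝ) ^ (-δ) :=
          Real.rpow_nonneg (by positivity) _
        have hXp : 0 < X ^ (-(δ / 4)) := Real.rpow_pos_of_pos hX0 _
        calc ((ti A j : ℝ) + 2) ^ K' / j * min 1 (2 ^ (L + 1) / 2 ^ j) *
              ((max 1 (L - (j + 1 + ti A j)) : ℕ) : ℝ) ^ (-δ)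
            ≤ (C * X ^ (-(δ / 4))) * (1 / 2 : ℝ) ^ (j - (L + 1)) * 1 :=
              mul_le_mul (mul_le_mul haC hw hw0 (by positivity)) hn1 hn0 (by positivity)
          _ = _ := mul_one _
      refine (Finset.sum_le_sum r1).trans ?_
      rw [← Finset.mul_sum]
      have hg : ∑ j ∈ (Ico j₀ J).filter (fun j => ¬ j ≤ L + 1), (1 / 2 : ℝ) ^ (j - (L + 1)) ≤
          ∑' i : ℕ, (1 / 2 : ℝ) ^ i := by
        refine sum_comp_le summable_geometric_two (fun i => by positivity) _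
          (fun j => j - (L + 1)) ?_
        intro a ha b hb hab
        have h2 := (Finset.mem_filter.1 (Finset.mem_coe.1 ha)).2
        have h3 := (Finset.mem_filter.1 (Finset.mem_coe.1 hb)).2
        have h4 : a - (L + 1) = b - (L + 1) := hab
        omega
      rw [tsum_geometric_two] at hg
      have hXp : 0 < X ^ (-(δ / 4)) := Real.rpow_pos_of_pos hX0 _
      calc C * X ^ (-(δ / 4)) * ∑ j ∈ (Ico j₀ J).filter (fun j => ¬ j ≤ L + 1),
            (1 / 2 : ℝ) ^ (j - (L + 1)) ≤ C * X ^ (-(δ / 4)) * 2 :=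
            mul_le_mul_of_nonneg_left hg (by positivity)
        _ = 2 * C * X ^ (-(δ / 4)) := by ring
    refine (add_le_add q1 q2).trans (le_of_eq ?_)
    rw [hC₂]; ring
  linarith [part1 J]

end Pool.Agent.Helper59.PP
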